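import Pool.Agent.Q186.DY.Stm

set_option autoImplicit false

namespace Pool.Agent.Q195.DY

open Set Filter Topology MeasureTheory
open Pool.Agent.Q186.DY

lemma trunc_cont {L g k : ℝ} {N : ℕ} {a : ℕ → ℝ} {U : ℕ → ℝ → ℝ} (h : Trunc L g k N a U)
    (hN : 1 ≤ N) (n : ℕ) (hn : n ≤ N + 1) : ContinuousOn (U n) (Ici 0) := by
  have h1 : ∀ n, n ≤ N → ContinuousOn (U n) (Ici 0) := by
    intro n hn
    rcases n with _ | m
    · exact (continuousOn_const (c := (0:ℝ))).congr (fun t ht => h.zero t ht)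
    · intro t ht
      exact (h.deriv m t hn ht).continuousWithinAt
  rcases Nat.lt_or_ge n (N + 1) with h2 | h2
  · exact h1 n (by omega)
  · have : n = N + 1 := by omega
    subst this
    exact (h1 N le_rfl).congr (fun t ht => h.last t ht)

/-- the Lipschitz constant -/
noncomputable def DD (L g k : ℝ) (C : ℕ → ℝ) (n : ℕ) : ℝ :=
  L ^ n * (|C n| ^ 2 + |C (n + 1)| * (g * (|C (n + 2)| + |C (n + 1)|) + k))

lemma trunc_lip {L g k : ℝ} {N : ℕ} {a : ℕ → ℝ} {U : ℕ → ℝ → ℝ} (hL : 1 ≤ L) (hg : 1 ≤ g)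
    (hk : 0 < k) (h : Trunc L g k N a U) (C : ℕ → ℝ)
    (hC : ∀ n t, n ≤ N → 0 ≤ t → U n t ≤ C n) (n : ℕ) (hn : n + 1 ≤ N) (s t : ℝ)
    (hs : 0 ≤ s) (ht : 0 ≤ t) :
    |U (n + 1) t - U (n + 1) s| ≤ DD L g k C n * |t - s| := by
  have hb : ∀ x ∈ Ici (0:ℝ), ‖L ^ n * (U n x ^ 2 - U (n + 1) x * (g * U (n + 2) x + k))‖
      ≤ DD L g k C n := by
    intro x hx
    have hx : 0 ≤ x := hx
    have u0 : 0 ≤ U n x := h.nonneg n x hx (by omega)
    have v0 : 0 ≤ U (n + 1) x := h.nonneg (n + 1) x hx (by omega)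
    have w0 : 0 ≤ U (n + 2) x := h.nonneg (n + 2) x hx (by omega)
    have u1 : U n x ≤ |C n| := (hC n x (by omega) hx).trans (le_abs_self _)
    have v1 : U (n + 1) x ≤ |C (n + 1)| := (hC (n + 1) x (by omega) hx).trans (le_abs_self _)
    have w1 : U (n + 2) x ≤ |C (n + 2)| + |C (n + 1)| := by
      rcases Nat.lt_or_ge N (n + 2) with h2 | h2
      · have h3 : N = n + 1 := by omega
        have h4 : U (n + 2) x = U (n + 1) x := by
          have := h.last x hx
          rw [h3] at this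
          exact this
        rw [h4]
        linarith [abs_nonneg (C (n + 2))]
      · linarith [(hC (n + 2) x h2 hx).trans (le_abs_self _), abs_nonneg (C (n + 1))]
    have hLn : 0 ≤ L ^ n := by positivity
    rw [Real.norm_eq_abs, abs_mul, abs_of_nonneg hLn]
    unfold DD
    apply mul_le_mul_of_nonneg_left _ hLn
    have e1 : U n x ^ 2 ≤ |C n| ^ 2 := pow_le_pow_left₀ u0 u1 2
    have e2 : g * U (n + 2) x + k ≤ g * (|C (n + 2)| + |C (n + 1)|) + k := by
      have := mul_le_mul_of_nonneg_left w1 (by linarith : (0:ℝ) ≤ g)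
      linarith
    have e3 : U (n + 1) x * (g * U (n + 2) x + k) ≤
        |C (n + 1)| * (g * (|C (n + 2)| + |C (n + 1)|) + k) :=
      mul_le_mul v1 e2 (by positivity) (abs_nonneg _)
    have e4 : 0 ≤ U (n + 1) x * (g * U (n + 2) x + k) := by positivity
    rw [abs_le]
    constructor
    · nlinarith [sq_nonneg (U n x), sq_nonneg (|C n|)]
    · nlinarith [sq_nonneg (U n x)]
  have := (convex_Ici (0:ℝ)).norm_image_sub_le_of_norm_hasDerivWithin_le
    (f := U (n + 1)) (fun x hx => h.deriv n x hn hx) hb hs ht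
  simpa [Real.norm_eq_abs] using this

lemma DD_nonneg {L g k : ℝ} (hL : 1 ≤ L) (hg : 1 ≤ g) (hk : 0 < k) (C : ℕ → ℝ) (n : ℕ) :
    0 ≤ DD L g k C n := by
  unfold DD
  have h1 : 0 ≤ L ^ n := by positivity
  have h2 : 0 ≤ g * (|C (n + 2)| + |C (n + 1)|) + k := by positivity
  positivity

/-- a sequence of uniformly Lipschitz functions converging at the rationals converges. -/
lemma cauchy_real (f : ℕ → ℝ → ℝ) (D : ℝ) (hD : 0 ≤ D) (j0 : ℕ)
    (hlip : ∀ j, j0 ≤ j → ∀ s t : ℝ, 0 ≤ s → 0 ≤ t → |f j t - f j s| ≤ D * |t - s|)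
    (hq : ∀ r : ℚ, 0 ≤ r → ∃ v, Tendsto (fun j => f j (r : ℝ)) atTop (𝓝 v)) (t : ℝ)
    (ht : 0 ≤ t) : ∃ v, Tendsto (fun j => f j t) atTop (𝓝 v) := by
  apply cauchySeq_tendsto_of_complete
  rw [Metric.cauchySeq_iff']
  intro ε hε
  obtain ⟨r, hr1, hr2⟩ := exists_rat_btwn (show t < t + ε / (4 * (D + 1)) by
    have : 0 < ε / (4 * (D + 1)) := by positivity
    linarith)
  have hr0 : (0:ℝ) ≤ (r:ℝ) := by linarith
  have hr0' : 0 ≤ r := by exact_mod_cast hr0
  obtain ⟨v, hv⟩ := hq r hr0'
  obtain ⟨M, hM⟩ := (Metric.cauchySeq_iff'.mp hv.cauchySeq) (ε / 4) (by positivity)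
  -- better: use a common index
  have hv2 := hv
  rw [Metric.tendsto_atTop] at hv2
  obtain ⟨M2, hM2⟩ := hv2 (ε / 8) (by positivity)
  refine ⟨max M2 j0, fun n hn => ?_⟩
  have h1 := hlip n (le_trans (le_max_right _ _) hn) r t hr0 ht
  have h2 := hlip (max M2 j0) (le_max_right _ _) r t hr0 ht
  have h3 := hM2 n (le_trans (le_max_left _ _) hn)
  have h4 := hM2 (max M2 j0) (le_max_left _ _)
  rw [Real.dist_eq] at h3 h4 ⊢
  have h5 : D * |t - r| ≤ ε / 4 := by
    have : |t - r| ≤ ε / (4 * (D + 1)) := by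
      rw [abs_sub_comm, abs_of_pos (by linarith)]
      linarith
    calc D * |t - r| ≤ (D + 1) * (ε / (4 * (D + 1))) := by
          apply mul_le_mul (by linarith) this (abs_nonneg _) (by linarith)
      _ = ε / 4 := by field_simp
  rw [abs_lt] at h3 h4 ⊢
  rw [abs_le] at h1 h2
  constructor <;> linarith [h1.1, h1.2, h2.1, h2.2, h3.1, h3.2, h4.1, h4.2]

theorem t_CP : P_CP := by
  intro L g k a C U hL hg hk hU hC
  classical
  -- subsequence
  let x : ℕ → (ℕ × {r : ℚ // 0 ≤ r}) → ℝ := fun N p => if 1 ≤ N ∧ p.1 ≤ N then U N p.1 (p.2.1 : ℝ) else 0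
  have hcpt : IsCompact (Set.pi Set.univ (fun p : ℕ × {r : ℚ // 0 ≤ r} => Icc (0:ℝ) (max (C p.1) 0))) :=
    isCompact_univ_pi (fun p => isCompact_Icc)
  have hmem : ∀ N, x N ∈ Set.pi Set.univ (fun p : ℕ × {r : ℚ // 0 ≤ r} => Icc (0:ℝ) (max (C p.1) 0)) := by
    intro N p _
    have hp : (0:ℝ) ≤ (p.2.1 : ℝ) := by exact_mod_cast p.2.2
    show x N p ∈ _
    simp only [x]
    split_ifs with h
    · exact ⟨(hU N h.1).nonneg _ _ hp (by omega), (hC N p.1 _ h.1 h.2 hp).trans (le_max_left _ _)⟩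
    · exact ⟨le_rfl, le_max_right _ _⟩
  obtain ⟨y, _, φ, hφ, hy⟩ := hcpt.tendsto_subseq hmem
  rw [tendsto_pi_nhds] at hy
  have hφge : ∀ j, j ≤ φ j := hφ.id_le
  -- lipschitz bound for index n
  have hlipn : ∀ n j, n + 1 ≤ j → ∀ s t : ℝ, 0 ≤ s → 0 ≤ t →
      |U (φ j) (n + 1) t - U (φ j) (n + 1) s| ≤ DD L g k C n * |t - s| := by
    intro n j hj s t hs ht
    have h1 : 1 ≤ φ j := le_trans (by omega) (hφge j)
    exact trunc_lip hL hg hk (hU _ h1) C (fun m t hm ht => hC _ m t h1 hm ht) n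
      (le_trans hj (hφge j)) s t hs ht
  have hlim0 : ∀ t, 0 ≤ t → Tendsto (fun j => U (φ j) 0 t) atTop (𝓝 0) := by
    intro t ht
    apply tendsto_const_nhds.congr'
    filter_upwards [eventually_ge_atTop 1] with j hj
    exact ((hU _ (le_trans hj (hφge j))).zero t ht).symm
  have hlim : ∀ n t, 0 ≤ t → ∃ v, Tendsto (fun j => U (φ j) n t) atTop (𝓝 v) := by
    intro n t ht
    rcases n with _ | m
    · exact ⟨0, hlim0 t ht⟩
    · apply cauchy_real (fun j => U (φ j) (m + 1)) (DD L g k C m) (DD_nonneg hL hg hk C m) (m + 1)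
        (hlipn m) _ t ht
      intro r hr
      refine ⟨y (m + 1, ⟨r, hr⟩), ?_⟩
      apply (hy (m + 1, ⟨r, hr⟩)).congr'
      filter_upwards [eventually_ge_atTop (m + 1)] with j hj
      have h1 : 1 ≤ φ j := le_trans (by omega) (hφge j)
      have h2 : m + 1 ≤ φ j := le_trans hj (hφge j)
      simp [x, Function.comp, h1, h2]
  choose! V hV using hlim
  have hVnn : ∀ n t, 0 ≤ t → 0 ≤ V n t := by
    intro n t ht
    apply ge_of_tendsto (hV n t ht)
    filter_upwards [eventually_ge_atTop (n + 1)] with j hj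
    have h1 : 1 ≤ φ j := le_trans (by omega) (hφge j)
    exact (hU _ h1).nonneg n t ht (by have := hφge j; omega)
  have hVlip : ∀ n s t, 0 ≤ s → 0 ≤ t → |V (n + 1) t - V (n + 1) s| ≤ DD L g k C n * |t - s| := by
    intro n s t hs ht
    apply le_of_tendsto (((hV (n+1) t ht).sub (hV (n+1) s hs)).abs)
    filter_upwards [eventually_ge_atTop (n + 1)] with j hj
    exact hlipn n j hj s t hs ht
  have hV0 : ∀ t, 0 ≤ t → V 0 t = 0 := fun t ht => tendsto_nhds_unique (hV 0 t ht) (hlim0 t ht)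
  have hVcont : ∀ n, ContinuousOn (V n) (Ici 0) := by
    intro n
    rcases n with _ | m
    · exact (continuousOn_const (c := (0:ℝ))).congr (fun t ht => hV0 t ht)
    · have : LipschitzOnWith (DD L g k C m).toNNReal (V (m + 1)) (Ici 0) := by
        apply LipschitzOnWith.of_dist_le_mul
        intro s hs t ht
        rw [Real.coe_toNNReal _ (DD_nonneg hL hg hk C m), Real.dist_eq, Real.dist_eq]
        exact hVlip m t s ht hs
      exact this.continuousOn
  -- the vector field
  have hGcont : ∀ n, ContinuousOn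
      (fun s => L ^ n * (V n s ^ 2 - V (n + 1) s * (g * V (n + 2) s + k))) (Ici 0) := by
    intro n
    have h0 := hVcont n
    have h1 := hVcont (n + 1)
    have h2 := hVcont (n + 2)
    fun_prop
  have hint : ∀ n t, 0 ≤ t → V (n + 1) t = V (n + 1) 0 +
      ∫ s in (0:ℝ)..t, L ^ n * (V n s ^ 2 - V (n + 1) s * (g * V (n + 2) s + k)) := by
    intro n t ht
    have hj : ∀ j, n + 1 ≤ j → U (φ j) (n + 1) t = U (φ j) (n + 1) 0 +
        ∫ s in (0:ℝ)..t, L ^ n * (U (φ j) n s ^ 2 - U (φ j) (n + 1) s * (g * U (φ j) (n + 2) s + k)) := by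
      intro j hj
      have h1 : 1 ≤ φ j := le_trans (by omega) (hφge j)
      have h2 : n + 1 ≤ φ j := le_trans hj (hφge j)
      have T := hU _ h1
      have c0 := (trunc_cont T h1 n (by omega)).mono (Icc_subset_Ici_self : Icc 0 t ⊆ Ici 0)
      have c1 := (trunc_cont T h1 (n+1) (by omega)).mono (Icc_subset_Ici_self : Icc 0 t ⊆ Ici 0)
      have c2 := (trunc_cont T h1 (n+2) (by omega)).mono (Icc_subset_Ici_self : Icc 0 t ⊆ Ici 0)
      have := intervalIntegral.integral_eq_sub_of_hasDeriv_right_of_le ht c1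
        (f' := fun s => L ^ n * (U (φ j) n s ^ 2 - U (φ j) (n + 1) s * (g * U (φ j) (n + 2) s + k)))
        (fun x hx => (T.deriv n x h2 hx.1.le).mono (fun z hz => (hx.1.le.trans (le_of_lt hz)))) (by
          apply ContinuousOn.intervalIntegrable
          rw [uIcc_of_le ht]
          fun_prop)
      rw [this]; ring
    have hl : Tendsto (fun j => U (φ j) (n + 1) 0 +
        ∫ s in (0:ℝ)..t, L ^ n * (U (φ j) n s ^ 2 - U (φ j) (n + 1) s * (g * U (φ j) (n + 2) s + k)))
        atTop (𝓝 (V (n + 1) 0 +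
      ∫ s in (0:ℝ)..t, L ^ n * (V n s ^ 2 - V (n + 1) s * (g * V (n + 2) s + k)))) := by
      apply (hV (n + 1) 0 le_rfl).add
      apply intervalIntegral.tendsto_integral_filter_of_dominated_convergence
        (fun _ => DD L g k C n)
      · filter_upwards [eventually_ge_atTop (n + 1)] with j hj
        have h1 : 1 ≤ φ j := le_trans (by omega) (hφge j)
        have h2 : n + 1 ≤ φ j := le_trans hj (hφge j)
        have T := hU _ h1
        rw [uIoc_of_le ht]
        have c0 := (trunc_cont T h1 n (by omega)).mono (fun z hz => (le_of_lt hz.1) : Ioc 0 t ⊆ Ici 0)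
        have c1 := (trunc_cont T h1 (n+1) (by omega)).mono (fun z hz => (le_of_lt hz.1) : Ioc 0 t ⊆ Ici 0)
        have c2 := (trunc_cont T h1 (n+2) (by omega)).mono (fun z hz => (le_of_lt hz.1) : Ioc 0 t ⊆ Ici 0)
        apply ContinuousOn.aestronglyMeasurable _ measurableSet_Ioc
        fun_prop
      · filter_upwards [eventually_ge_atTop (n + 1)] with j hj
        refine Eventually.of_forall (fun s hs => ?_)
        rw [uIoc_of_le ht] at hs
        have h1 : 1 ≤ φ j := le_trans (by omega) (hφge j)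
        have h2 : n + 1 ≤ φ j := le_trans hj (hφge j)
        have T := hU _ h1
        have hx : 0 ≤ s := hs.1.le
        have u0 : 0 ≤ U (φ j) n s := T.nonneg n s hx (by omega)
        have v0 : 0 ≤ U (φ j) (n + 1) s := T.nonneg (n + 1) s hx (by omega)
        have w0 : 0 ≤ U (φ j) (n + 2) s := T.nonneg (n + 2) s hx (by omega)
        have u1 : U (φ j) n s ≤ |C n| := (hC _ n s h1 (by omega) hx).trans (le_abs_self _)
        have v1 : U (φ j) (n + 1) s ≤ |C (n + 1)| :=
          (hC _ (n + 1) s h1 (by omega) hx).trans (le_abs_self _)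
        have w1 : U (φ j) (n + 2) s ≤ |C (n + 2)| + |C (n + 1)| := by
          rcases Nat.lt_or_ge (φ j) (n + 2) with h2' | h2'
          · have h3 : φ j = n + 1 := by omega
            have h4 : U (φ j) (n + 2) s = U (φ j) (n + 1) s := by
              have := T.last s hx
              rw [h3] at this ⊢
              exact this
            rw [h4]
            linarith [abs_nonneg (C (n + 2))]
          · linarith [(hC _ (n + 2) s h1 h2' hx).trans (le_abs_self _), abs_nonneg (C (n + 1))]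
        have hLn : 0 ≤ L ^ n := by positivity
        rw [Real.norm_eq_abs, abs_mul, abs_of_nonneg hLn]
        unfold DD
        apply mul_le_mul_of_nonneg_left _ hLn
        have e1 : U (φ j) n s ^ 2 ≤ |C n| ^ 2 := pow_le_pow_left₀ u0 u1 2
        have e2 : g * U (φ j) (n + 2) s + k ≤ g * (|C (n + 2)| + |C (n + 1)|) + k := by
          have := mul_le_mul_of_nonneg_left w1 (by linarith : (0:ℝ) ≤ g)
          linarith
        have e3 : U (φ j) (n + 1) s * (g * U (φ j) (n + 2) s + k) ≤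
            |C (n + 1)| * (g * (|C (n + 2)| + |C (n + 1)|) + k) :=
          mul_le_mul v1 e2 (by positivity) (abs_nonneg _)
        have e4 : 0 ≤ U (φ j) (n + 1) s * (g * U (φ j) (n + 2) s + k) := by positivity
        rw [abs_le]
        constructor
        · nlinarith [sq_nonneg (U (φ j) n s), sq_nonneg (|C n|)]
        · nlinarith [sq_nonneg (U (φ j) n s)]
      · exact intervalIntegrable_const
      · refine Eventually.of_forall (fun s hs => ?_)
        rw [uIoc_of_le ht] at hs
        have hx : 0 ≤ s := hs.1.le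
        exact (((hV n s hx).pow 2).sub ((hV (n+1) s hx).mul
          (((hV (n+2) s hx).const_mul g).add_const k))).const_mul (L ^ n)
    refine tendsto_nhds_unique (hV (n + 1) t ht) (hl.congr' ?_)
    filter_upwards [eventually_ge_atTop (n + 1)] with j hj'
    exact (hj j hj').symm
  refine ⟨V, φ, ⟨hV0, ?_⟩, ?_, hφ, hV⟩
  · intro n t ht
    let G : ℝ → ℝ := fun s => L ^ n * (V n s ^ 2 - V (n + 1) s * (g * V (n + 2) s + k))
    have hG' : Continuous (fun s : ℝ => G (max s 0)) :=
      ContinuousOn.comp_continuous (f := fun s : ℝ => max s 0) (hGcont n)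
        (continuous_id.max continuous_const) (fun s : ℝ => le_max_right s 0)
    have hd : HasDerivAt (fun u => ∫ s in (0:ℝ)..u, G (max s 0)) (G (max t 0)) t :=
      intervalIntegral.integral_hasDerivAt_right (hG'.intervalIntegrable _ _)
        hG'.stronglyMeasurable.stronglyMeasurableAtFilter hG'.continuousAt
    have hd2 : HasDerivAt (fun u => V (n + 1) 0 + ∫ s in (0:ℝ)..u, G (max s 0)) (G t) t := by
      rw [max_eq_left ht] at hd
      exact hd.const_add _
    have key : ∀ u, 0 ≤ u → V (n + 1) u = V (n + 1) 0 + ∫ s in (0:ℝ)..u, G (max s 0) := by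
      intro u hu
      rw [hint n u hu]
      congr 1
      apply intervalIntegral.integral_congr
      intro s hs
      rw [uIcc_of_le hu] at hs
      simp only [G, max_eq_left hs.1]
    exact hd2.hasDerivWithinAt.congr (fun u hu => key u hu) (key t ht)
  · intro n hn
    refine tendsto_nhds_unique (hV n 0 le_rfl) (tendsto_const_nhds.congr' ?_)
    filter_upwards [eventually_ge_atTop n] with j hj
    exact ((hU _ (le_trans (by omega) (hφge j))).init n hn (le_trans hj (hφge j))).symm

end Pool.Agent.Q195.DY
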