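import Pool.Agent.Q186.DY.Stm
import Pool.Agent.H839R2.Ode.Flow

set_option autoImplicit false

namespace Pool.Agent.Q195.DY.TR

open Set Filter Topology
open Pool.Agent.Q186.DY
open scoped NNReal

/-- the clamp to `[0, R]`. -/
noncomputable def cc (R x : ℝ) : ℝ := max 0 (min x R)

lemma cc_nonneg (R x : ℝ) : 0 ≤ cc R x := le_max_left _ _

lemma cc_le {R : ℝ} (hR : 0 ≤ R) (x : ℝ) : cc R x ≤ R := max_le hR (min_le_right _ _)

lemma cc_id {R x : ℝ} (h0 : 0 ≤ x) (h1 : x ≤ R) : cc R x = x := by
  rw [cc, min_eq_left h1, max_eq_right h0]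

lemma cc_neg {R x : ℝ} (h0 : x ≤ 0) : cc R x = 0 := by
  rw [cc, max_eq_left]
  exact (min_le_left _ _).trans h0

lemma cc_lip (R x y : ℝ) : |cc R x - cc R y| ≤ |x - y| := by
  unfold cc
  have h1 := abs_max_sub_max_le_max (0:ℝ) (min x R) (0:ℝ) (min y R)
  have h2 := abs_min_sub_min_le_max x R y R
  simp only [sub_self, abs_zero] at h1 h2
  have h3 : max 0 |min x R - min y R| = |min x R - min y R| := max_eq_right (abs_nonneg _)
  have h4 : max |x - y| 0 = |x - y| := max_eq_left (abs_nonneg _)
  rw [h3] at h1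
  rw [h4] at h2
  exact h1.trans h2

lemma nonneg_of_deriv (f f' : ℝ → ℝ) (h0 : 0 ≤ f 0) (hd : ∀ t, 0 ≤ t → HasDerivAt f (f' t) t)
    (hf : ∀ t, 0 ≤ t → f t < 0 → 0 ≤ f' t) (t : ℝ) (ht : 0 ≤ t) : 0 ≤ f t := by
  by_contra hc
  push Not at hc
  have hcont : ContinuousOn f (Icc 0 t) := fun s hs => (hd s hs.1).continuousAt.continuousWithinAt
  have hcl : IsCompact {s ∈ Icc 0 t | 0 ≤ f s} := by
    have : {s ∈ Icc 0 t | 0 ≤ f s} = Icc 0 t ∩ f ⁻¹' (Ici 0) := rfl
    rw [this]
    exact isCompact_Icc.of_isClosed_subset (hcont.preimage_isClosed_of_isClosed isClosed_Icc isClosed_Ici)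
      inter_subset_left
  obtain ⟨s, hs1, hs2⟩ := hcl.exists_isGreatest ⟨0, ⟨le_rfl, ht⟩, h0⟩
  have hst : s < t := by
    rcases lt_or_eq_of_le hs1.1.2 with h | h
    · exact h
    · exfalso
      have := hs1.2
      rw [h] at this
      linarith
  have hmono : MonotoneOn f (Icc s t) := by
    apply monotoneOn_of_deriv_nonneg (convex_Icc s t)
    · exact hcont.mono (Icc_subset_Icc hs1.1.1 le_rfl)
    · rw [interior_Icc]
      intro r hr
      exact (hd r (hs1.1.1.trans hr.1.le)).differentiableAt.differentiableWithinAt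
    · rw [interior_Icc]
      intro r hr
      have hr0 : 0 ≤ r := hs1.1.1.trans hr.1.le
      rw [(hd r hr0).deriv]
      apply hf r hr0
      by_contra hcc
      push Not at hcc
      have := hs2 ⟨⟨hr0, hr.2.le⟩, hcc⟩
      linarith [hr.1]
  have := hmono (left_mem_Icc.mpr hst.le) (right_mem_Icc.mpr hst.le) hst.le
  linarith [hs1.2]

lemma telescope (g : ℝ) (u : ℕ → ℝ) (h0 : u 0 = 0) (M : ℕ) :
    ∑ n ∈ Finset.range M, g ^ (n + 1) * (u (n + 1) * u n ^ 2 - g * u (n + 1) ^ 2 * u (n + 2)) =
      - (g ^ (M + 1) * u M ^ 2 * u (M + 1)) := by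
  induction M with
  | zero => simp [h0]
  | succ M ih => rw [Finset.sum_range_succ, ih]; ring

/-- the derivative of the energy is `≤ -(2k/L)` times the energy. -/
lemma energy_deriv (L g k : ℝ) (hL : 1 ≤ L) (hg : 1 ≤ g) (hk : 0 < k) (N : ℕ) (u : ℕ → ℝ)
    (h0 : u 0 = 0) (hn : ∀ n, n ≤ N + 1 → 0 ≤ u n) :
    ∑ n ∈ Finset.range N, (g / L) ^ (n + 1) * (2 * u (n + 1) *
      (L ^ n * (u n ^ 2 - u (n + 1) * (g * u (n + 2) + k)))) ≤
      - (2 * k / L) * ∑ n ∈ Finset.range (N + 1), (g / L) ^ n * u n ^ 2 := by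
  have hLp : 0 < L := by linarith
  have e1 : ∑ n ∈ Finset.range N, (g / L) ^ (n + 1) * (2 * u (n + 1) *
      (L ^ n * (u n ^ 2 - u (n + 1) * (g * u (n + 2) + k)))) =
      (2 / L) * ∑ n ∈ Finset.range N, g ^ (n + 1) * (u (n + 1) * u n ^ 2 - g * u (n + 1) ^ 2 * u (n + 2))
      - (2 * k / L) * ∑ n ∈ Finset.range N, g ^ (n + 1) * u (n + 1) ^ 2 := by
    rw [Finset.mul_sum, Finset.mul_sum, ← Finset.sum_sub_distrib]
    apply Finset.sum_congr rfl
    intro n _
    rw [div_pow, pow_succ L n]
    field_simp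
    ring
  rw [e1, telescope g u h0 N]
  have e2 : ∑ n ∈ Finset.range (N + 1), (g / L) ^ n * u n ^ 2 ≤
      ∑ n ∈ Finset.range N, g ^ (n + 1) * u (n + 1) ^ 2 := by
    rw [Finset.sum_range_succ', h0]
    simp only [ne_eq, OfNat.ofNat_ne_zero, not_false_eq_true, zero_pow, mul_zero, add_zero]
    apply Finset.sum_le_sum
    intro n _
    apply mul_le_mul_of_nonneg_right _ (sq_nonneg _)
    apply pow_le_pow_left₀ (by positivity)
    rw [div_le_iff₀ hLp]
    nlinarith
  have e3 : 0 ≤ g ^ (N + 1) * u N ^ 2 * u (N + 1) := by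
    have := hn (N + 1) le_rfl
    positivity
  have e4 : 0 ≤ 2 / L := by positivity
  have e5 : 0 ≤ 2 * k / L := by positivity
  nlinarith [mul_nonneg e4 e3, mul_le_mul_of_nonneg_left e2 e5]

theorem t_TR : P_BAR → P_TR := by
  intro hBAR L g k N a hL hg hk hN ha
  have hLp : 0 < L := by linarith
  have hgp : 0 < g := by linarith
  set b : ℕ → ℝ := fun n => if n = 0 then 0 else a n with hb
  have hb0 : ∀ n, 0 ≤ b n := by
    intro n; simp only [hb]; split_ifs; exacts [le_rfl, ha n]
  set E : ℝ := ∑ n ∈ Finset.range (N + 1), (g / L) ^ n * b n ^ 2 + 1 with hE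
  have hE1 : 1 ≤ E := by
    have : 0 ≤ ∑ n ∈ Finset.range (N + 1), (g / L) ^ n * b n ^ 2 :=
      Finset.sum_nonneg (fun n _ => by positivity)
    linarith
  set R : ℝ := L ^ N * (E + 1) with hR
  have hLN : 1 ≤ L ^ N := one_le_pow₀ hL
  have hR1 : 1 ≤ R := by rw [hR]; nlinarith
  have hR0 : 0 ≤ R := by linarith
  have hRE : ∀ n ≤ N, E < (g / L) ^ n * R ^ 2 := by
    intro n hn
    have h1 : 1 / L ^ N ≤ (g / L) ^ n := by
      rw [div_pow]
      apply div_le_div₀ (by positivity) (one_le_pow₀ hg) (by positivity)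
      exact pow_le_pow_right₀ hL hn
    have h2 : (E + 1) ^ 2 ≤ (g / L) ^ n * R ^ 2 := by
      calc (E + 1) ^ 2 ≤ L ^ N * (E + 1) ^ 2 := by nlinarith [sq_nonneg (E + 1)]
        _ = (1 / L ^ N) * R ^ 2 := by rw [hR]; field_simp
        _ ≤ (g / L) ^ n * R ^ 2 := mul_le_mul_of_nonneg_right h1 (sq_nonneg _)
    nlinarith
  -- the vector field
  set e : ℕ → Fin (N + 1) := fun n => ⟨min n N, by omega⟩ with he
  set W : (Fin (N + 1) → ℝ) → (Fin (N + 1) → ℝ) := fun v i =>
    if (i : ℕ) = 0 then 0 else L ^ ((i : ℕ) - 1) * (cc R (v (e (i - 1))) ^ 2 -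
      cc R (v i) * (g * cc R (v (e (i + 1))) + k)) with hW
  have hLi : ∀ i : Fin (N + 1), L ^ ((i : ℕ) - 1) ≤ L ^ N := fun i =>
    pow_le_pow_right₀ hL (by have := i.2; omega)
  have hlip : ∀ v w : Fin (N + 1) → ℝ, dist (W v) (W w) ≤
      (L ^ N * (2 * R + (g * R + k) + R * g)) * dist v w := by
    intro v w
    have hB : 0 ≤ L ^ N * (2 * R + (g * R + k) + R * g) := by positivity
    rw [dist_pi_le_iff (by positivity)]
    intro i
    rw [Real.dist_eq]
    by_cases hi : (i : ℕ) = 0
    · simp only [hW, hi, if_true, sub_self, abs_zero]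
      positivity
    · simp only [hW, hi, if_false]
      have dle : ∀ j, |v j - w j| ≤ dist v w := fun j => by
        have := dist_le_pi_dist v w j
        rwa [Real.dist_eq] at this
      have hd0 : 0 ≤ dist v w := dist_nonneg
      have l1 := (cc_lip R (v (e (i - 1))) (w (e (i - 1)))).trans (dle _)
      have l2 := (cc_lip R (v i) (w i)).trans (dle _)
      have l3 := (cc_lip R (v (e (i + 1))) (w (e (i + 1)))).trans (dle _)
      have x0 := cc_nonneg R (v (e (i - 1)))
      have x1 := cc_le hR0 (v (e (i - 1)))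
      have x0' := cc_nonneg R (w (e (i - 1)))
      have x1' := cc_le hR0 (w (e (i - 1)))
      have y0 := cc_nonneg R (v i)
      have y1 := cc_le hR0 (v i)
      have y0' := cc_nonneg R (w i)
      have y1' := cc_le hR0 (w i)
      have z0 := cc_nonneg R (v (e (i + 1)))
      have z1 := cc_le hR0 (v (e (i + 1)))
      have z0' := cc_nonneg R (w (e (i + 1)))
      have z1' := cc_le hR0 (w (e (i + 1)))
      generalize cc R (v (e (i - 1))) = x at *
      generalize cc R (w (e (i - 1))) = x' at *
      generalize cc R (v i) = y at *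
      generalize cc R (w i) = y' at *
      generalize cc R (v (e (i + 1))) = z at *
      generalize cc R (w (e (i + 1))) = z' at *
      generalize dist v w = D at *
      have h1 : |x ^ 2 - x' ^ 2| ≤ 2 * R * D := by
        have : x ^ 2 - x' ^ 2 = (x + x') * (x - x') := by ring
        rw [this, abs_mul]
        apply mul_le_mul _ l1 (abs_nonneg _) (by positivity)
        rw [abs_of_nonneg (by linarith)]; linarith
      have h2 : |y * (g * z + k) - y' * (g * z' + k)| ≤ (g * R + k) * D + R * g * D := by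
        have : y * (g * z + k) - y' * (g * z' + k) = (g * z + k) * (y - y') + y' * g * (z - z') := by
          ring
        rw [this]
        refine (abs_add_le _ _).trans (add_le_add ?_ ?_)
        · rw [abs_mul]
          apply mul_le_mul _ l2 (abs_nonneg _) (by positivity)
          rw [abs_of_nonneg (by positivity)]
          nlinarith
        · rw [abs_mul]
          apply mul_le_mul _ l3 (abs_nonneg _) (by positivity)
          rw [abs_of_nonneg (by positivity)]
          nlinarith
      have h3 : L ^ ((i : ℕ) - 1) * (x ^ 2 - y * (g * z + k)) - L ^ ((i : ℕ) - 1) * (x' ^ 2 - y' * (g * z' + k))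
          = L ^ ((i : ℕ) - 1) * ((x ^ 2 - x' ^ 2) - (y * (g * z + k) - y' * (g * z' + k))) := by ring
      rw [h3, abs_mul, abs_of_nonneg (by positivity)]
      have h4 : |(x ^ 2 - x' ^ 2) - (y * (g * z + k) - y' * (g * z' + k))| ≤
          (2 * R + (g * R + k) + R * g) * D := by
        refine (abs_sub _ _).trans ?_
        linarith
      calc L ^ ((i : ℕ) - 1) * _ ≤ L ^ N * ((2 * R + (g * R + k) + R * g) * D) :=
            mul_le_mul (hLi i) h4 (abs_nonneg _) (by positivity)
        _ = _ := by ring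
  have hbd : ∀ v, ‖W v‖ ≤ L ^ N * (R ^ 2 + R * (g * R + k)) := by
    intro v
    rw [pi_norm_le_iff_of_nonneg (by positivity)]
    intro i
    rw [Real.norm_eq_abs]
    by_cases hi : (i : ℕ) = 0
    · simp only [hW, hi, if_true, abs_zero]
      positivity
    · simp only [hW, hi, if_false]
      have x0 := cc_nonneg R (v (e (i - 1)))
      have x1 := cc_le hR0 (v (e (i - 1)))
      have y0 := cc_nonneg R (v i)
      have y1 := cc_le hR0 (v i)
      have z0 := cc_nonneg R (v (e (i + 1)))
      have z1 := cc_le hR0 (v (e (i + 1)))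
      generalize cc R (v (e (i - 1))) = x at *
      generalize cc R (v i) = y at *
      generalize cc R (v (e (i + 1))) = z at *
      rw [abs_mul, abs_of_nonneg (by positivity)]
      apply mul_le_mul (hLi i) _ (abs_nonneg _) (by positivity)
      refine (abs_sub _ _).trans ?_
      rw [abs_of_nonneg (by positivity), abs_of_nonneg (by positivity)]
      have h1 : x ^ 2 ≤ R ^ 2 := pow_le_pow_left₀ x0 x1 2
      have h2 : y * (g * z + k) ≤ R * (g * R + k) := by
        apply mul_le_mul y1 _ (by positivity) hR0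
        nlinarith
      linarith
  obtain ⟨α, hα0, hα⟩ := Pool.Agent.H839R2.Ode.exists_global_solution W
    (L ^ N * (2 * R + (g * R + k) + R * g)).toNNReal (L ^ N * (R ^ 2 + R * (g * R + k))).toNNReal
    (by
      apply LipschitzWith.of_dist_le_mul
      intro v w
      rw [Real.coe_toNNReal _ (by positivity)]
      exact hlip v w)
    (by
      intro v
      rw [Real.coe_toNNReal _ (by positivity)]
      exact hbd v) (fun i => b i)
  have hαi : ∀ t i, HasDerivAt (fun s => α s i) (W (α t) i) t := fun t i => hasDerivAt_pi.mp (hα t) i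
  set U : ℕ → ℝ → ℝ := fun n t => α t (e n) with hU
  have eval : ∀ n, n ≤ N → ((e n : Fin (N + 1)) : ℕ) = n := fun n hn => by simp [he, hn]
  have hUd : ∀ n t, n + 1 ≤ N → HasDerivAt (U (n + 1)) (L ^ n * (cc R (U n t) ^ 2 -
      cc R (U (n + 1) t) * (g * cc R (U (n + 2) t) + k))) t := by
    intro n t hn
    have h1 := hαi t (e (n + 1))
    have h2 : W (α t) (e (n + 1)) = L ^ n * (cc R (U n t) ^ 2 -
      cc R (U (n + 1) t) * (g * cc R (U (n + 2) t) + k)) := by
      simp only [hW, hU, eval (n + 1) hn]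
      simp
    rw [h2] at h1
    exact h1
  have hU0d : ∀ t, HasDerivAt (U 0) 0 t := by
    intro t
    have h1 := hαi t (e 0)
    have h2 : W (α t) (e 0) = 0 := by
      simp only [hW, eval 0 (Nat.zero_le _)]
      simp
    rw [h2] at h1
    exact h1
  have hUinit : ∀ n, n ≤ N → U n 0 = b n := by
    intro n hn
    simp only [hU, hα0, eval n hn]
  have hU0 : ∀ t, U 0 t = 0 := by
    intro t
    have h1 : U 0 t = U 0 0 := is_const_of_deriv_eq_zero
      (fun x => (hU0d x).differentiableAt) (fun x => (hU0d x).deriv) t 0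
    rw [h1, hUinit 0 (Nat.zero_le _)]
    simp [hb]
  have hlast : ∀ t, U (N + 1) t = U N t := by
    intro t
    simp [hU, he]
  have hUdiff : ∀ n, n ≤ N → ∀ t, DifferentiableAt ℝ (U n) t := by
    intro n hn t
    rcases n with _ | m
    · exact (hU0d t).differentiableAt
    · exact (hUd m t hn).differentiableAt
  have hUnn : ∀ n t, 0 ≤ t → n ≤ N → 0 ≤ U n t := by
    intro n t ht hn
    rcases n with _ | m
    · rw [hU0]
    · apply nonneg_of_deriv (U (m + 1)) _ _ (fun s _ => hUd m s hn) _ t ht
      · rw [hUinit _ hn]; exact hb0 _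
      · intro s _ hs
        rw [cc_neg hs.le, zero_mul, sub_zero]
        positivity
  have hUnn' : ∀ n t, 0 ≤ t → n ≤ N + 1 → 0 ≤ U n t := by
    intro n t ht hn
    rcases Nat.lt_or_ge n (N + 1) with h | h
    · exact hUnn n t ht (by omega)
    · have : n = N + 1 := by omega
      rw [this, hlast]
      exact hUnn N t ht le_rfl
  -- the energy
  set en : ℝ → ℝ := fun t => ∑ n ∈ Finset.range (N + 1), (g / L) ^ n * U n t ^ 2 with hen
  have hend : ∀ t, 0 ≤ t → (∀ n ≤ N, U n t ≤ R) → HasDerivAt en
      (∑ n ∈ Finset.range N, (g / L) ^ (n + 1) * (2 * U (n + 1) t *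
      (L ^ n * (U n t ^ 2 - U (n + 1) t * (g * U (n + 2) t + k))))) t := by
    intro t ht hR'
    have hcc : ∀ n ≤ N + 1, cc R (U n t) = U n t := by
      intro n hn
      apply cc_id (hUnn' n t ht hn)
      rcases Nat.lt_or_ge n (N + 1) with h | h
      · exact hR' n (by omega)
      · have : n = N + 1 := by omega
        rw [this, hlast]
        exact hR' N le_rfl
    have h1 : en = fun s => ∑ n ∈ Finset.range N, (g / L) ^ (n + 1) * U (n + 1) s ^ 2 := by
      funext s
      simp only [hen]
      rw [Finset.sum_range_succ', hU0]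
      simp
    rw [h1]
    apply HasDerivAt.fun_sum
    intro n hn
    have hn' : n + 1 ≤ N := by have := Finset.mem_range.mp hn; omega
    have h2 := hUd n t hn'
    rw [hcc n (by omega), hcc (n + 1) (by omega), hcc (n + 2) (by omega)] at h2
    have h3 := (h2.fun_pow 2).const_mul ((g / L) ^ (n + 1))
    refine h3.congr_deriv ?_
    simp
  have hen0 : en 0 = E - 1 := by
    simp only [hen, hE]
    rw [add_sub_cancel_right]
    apply Finset.sum_congr rfl
    intro n hn
    rw [hUinit n (by have := Finset.mem_range.mp hn; omega)]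
  have hencont : Continuous en := by
    apply continuous_finsetSum
    intro n hn
    have hn' : n ≤ N := by have := Finset.mem_range.mp hn; omega
    have : Continuous (U n) := continuous_iff_continuousAt.mpr (fun t => (hUdiff n hn' t).continuousAt)
    fun_prop
  have hUR : ∀ t, 0 ≤ t → en t ≤ E → ∀ n ≤ N, U n t < R := by
    intro t ht h n hn
    have h1 : (g / L) ^ n * U n t ^ 2 ≤ en t := by
      apply Finset.single_le_sum (f := fun n => (g / L) ^ n * U n t ^ 2) (fun m _ => by positivity)
      exact Finset.mem_range.mpr (by omega)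
    have h2 : (g / L) ^ n * U n t ^ 2 < (g / L) ^ n * R ^ 2 := by linarith [hRE n hn]
    have h3 : U n t ^ 2 < R ^ 2 := lt_of_mul_lt_mul_left h2 (by positivity)
    exact lt_of_pow_lt_pow_left₀ 2 hR0 h3
  have hsmall : ∀ T, 0 ≤ T → 0 < E - en T := by
    intro T hT
    refine hBAR Unit {()} (fun _ t => E - en t) T hT ?_ ?_ ?_ T hT le_rfl () (by simp)
    · intro i _
      exact (continuous_const.sub hencont).continuousOn
    · intro i _
      simp only [hen0]
      linarith
    · intro t ht htT i _ _ hphi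
      have hphi' : en t = E := by
        have : E - en t = 0 := hphi
        linarith
      have hR' := hUR t ht.le hphi'.le
      have hd := hend t ht.le (fun n hn => (hR' n hn).le)
      have hle := energy_deriv L g k hL hg hk N (fun n => U n t) (hU0 t)
        (fun n hn => hUnn' n t ht.le hn)
      refine ⟨_, ?_, (hd.const_sub E).hasDerivWithinAt⟩
      have h5 : 0 < 2 * k / L * E := by positivity
      have h6 : ∑ n ∈ Finset.range (N + 1), (g / L) ^ n * U n t ^ 2 = E := hphi'
      rw [h6] at hle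
      linarith
  have hUR' : ∀ t, 0 ≤ t → ∀ n ≤ N, U n t ≤ R := fun t ht n hn =>
    (hUR t ht (by linarith [hsmall t ht]) n hn).le
  refine ⟨U, fun t _ => hU0 t, fun t _ => hlast t, ?_, fun n t ht hn => hUnn' n t ht hn, ?_, ?_⟩
  · intro n h1 h2
    rw [hUinit n h2]
    simp only [hb]
    rw [if_neg (by omega)]
  · intro n t hn ht
    have h2 := hUd n t hn
    have hcc : ∀ n ≤ N + 1, cc R (U n t) = U n t := by
      intro n hn
      apply cc_id (hUnn' n t ht hn)
      rcases Nat.lt_or_ge n (N + 1) with h | h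
      · exact hUR' t ht n (by omega)
      · have : n = N + 1 := by omega
        rw [this, hlast]
        exact hUR' t ht N le_rfl
    rw [hcc n (by omega), hcc (n + 1) (by omega), hcc (n + 2) (by omega)] at h2
    exact h2.hasDerivWithinAt
  · intro t ht
    have hanti : AntitoneOn en (Ici 0) := by
      apply antitoneOn_of_deriv_nonpos (convex_Ici 0) hencont.continuousOn
      · rw [interior_Ici]
        intro s hs
        exact (hend s (le_of_lt hs) (hUR' s (le_of_lt hs))).differentiableAt.differentiableWithinAt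
      · rw [interior_Ici]
        intro s hs
        have hs' : 0 ≤ s := le_of_lt hs
        rw [(hend s hs' (hUR' s hs')).deriv]
        have hle := energy_deriv L g k hL hg hk N (fun n => U n s) (hU0 s)
          (fun n hn => hUnn' n s hs' hn)
        have h7 : 0 ≤ ∑ n ∈ Finset.range (N + 1), (g / L) ^ n * U n s ^ 2 :=
          Finset.sum_nonneg (fun n _ => by positivity)
        have h8 : 0 ≤ 2 * k / L := by positivity
        have h9 := mul_nonneg h8 h7
        linarith
    exact hanti (mem_Ici.mpr le_rfl) ht ht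

end Pool.Agent.Q195.DY.TR
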